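import Mathlib

/-!
# A tetrahedron whose longest edge misses the vertex of largest curvature
-/

namespace Pool.Agent.Results.MP_ba4d4a_gt.LongestEdgeDisproof

open EuclideanGeometry Real

/-- Euclidean three-space. -/
abbrev E3 : Type := EuclideanSpace ℝ (Fin 3)

/-- The points `T 0, T 1, T 2, T 3` are the vertices of a (non-degenerate) tetrahedron:
they are affinely independent, i.e. not coplanar. -/
def IsTetrahedron (T : Fin 4 → E3) : Prop :=
  AffineIndependent ℝ T

/-- The curvature (angle deficit) of the tetrahedron `T` at its vertex `T v`: `2π` minus the sum of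
the three face angles at `T v`. The faces containing `T v` are the triangles
`T v, T j, T k` with `j < k` both different from `v`, and the angle of this face at `T v`
is the unoriented angle `∠ (T j) (T v) (T k)`. -/
noncomputable def curvature (T : Fin 4 → E3) (v : Fin 4) : ℝ :=
  2 * π - ∑ p ∈ (Finset.univ : Finset (Fin 4 × Fin 4)).filter
    (fun p => p.1 < p.2 ∧ p.1 ≠ v ∧ p.2 ≠ v), ∠ (T p.1) (T v) (T p.2)

/-- The tetrahedron used: `a = (-15,0,0)`, `b = (15,0,0)`, `c = (0,-6,24)`, `d = (0,10,0)`. -/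
noncomputable def T₀ : Fin 4 → E3 :=
  ![!₂[-15, 0, 0], !₂[15, 0, 0], !₂[0, -6, 24], !₂[0, 10, 0]]

lemma T₀_zero : T₀ 0 = !₂[-15, 0, 0] := rfl
lemma T₀_one : T₀ 1 = !₂[15, 0, 0] := rfl
lemma T₀_two : T₀ 2 = !₂[0, -6, 24] := rfl
lemma T₀_three : T₀ 3 = !₂[0, 10, 0] := rfl

lemma isTetrahedron_T₀ : IsTetrahedron T₀ := by
  unfold IsTetrahedron
  rw [affineIndependent_iff_of_fintype]
  intro w hw h
  rw [Finset.weightedVSub_eq_linear_combination _ hw] at h
  have h0 := congrArg (fun v : E3 => v 0) h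
  have h1 := congrArg (fun v : E3 => v 1) h
  have h2 := congrArg (fun v : E3 => v 2) h
  simp [Fin.sum_univ_four, T₀_zero, T₀_one, T₀_two, T₀_three] at h0 h1 h2
  rw [Fin.sum_univ_four] at hw
  intro i
  fin_cases i <;> simp <;> linarith

lemma dist_aux (x y : E3) :
    dist x y = √((x 0 - y 0) ^ 2 + (x 1 - y 1) ^ 2 + (x 2 - y 2) ^ 2) := by
  rw [EuclideanSpace.dist_eq, Fin.sum_univ_three]
  simp [Real.dist_eq, sq_abs]

lemma norm_sq_aux (x : E3) :
    ‖x‖ ^ 2 = (x 0) ^ 2 + (x 1) ^ 2 + (x 2) ^ 2 := by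
  rw [EuclideanSpace.norm_sq_eq, Fin.sum_univ_three]
  simp [sq_abs]

lemma inner_aux (x y : E3) :
    inner ℝ x y = x 0 * y 0 + x 1 * y 1 + x 2 * y 2 := by
  simp [PiLp.inner_apply, Fin.sum_univ_three, mul_comm]

lemma cos_mul_aux (x y z : E3) :
    Real.cos (∠ x y z) * (‖x - y‖ * ‖z - y‖) = inner ℝ (x - y) (z - y) := by
  unfold EuclideanGeometry.angle
  simp only [vsub_eq_sub]
  exact InnerProductGeometry.cos_angle_mul_norm_mul_norm _ _

/-- The square of the cosine of an angle, and the sign of the cosine. -/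
lemma cos_sq_aux (x y z : E3) (A B I : ℝ)
    (hA : (x 0 - y 0) ^ 2 + (x 1 - y 1) ^ 2 + (x 2 - y 2) ^ 2 = A)
    (hB : (z 0 - y 0) ^ 2 + (z 1 - y 1) ^ 2 + (z 2 - y 2) ^ 2 = B)
    (hI : (x 0 - y 0) * (z 0 - y 0) + (x 1 - y 1) * (z 1 - y 1)
      + (x 2 - y 2) * (z 2 - y 2) = I) :
    Real.cos (∠ x y z) ^ 2 * (A * B) = I ^ 2 ∧ (0 ≤ I → 0 < A * B → 0 ≤ Real.cos (∠ x y z)) ∧
      (I ≤ 0 → 0 < A * B → Real.cos (∠ x y z) ≤ 0) := by
  have h := cos_mul_aux x y z
  have hA' : ‖x - y‖ ^ 2 = A := by rw [norm_sq_aux]; simpa using hA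
  have hB' : ‖z - y‖ ^ 2 = B := by rw [norm_sq_aux]; simpa using hB
  have hI' : inner ℝ (x - y) (z - y) = I := by rw [inner_aux]; simpa using hI
  rw [hI'] at h
  refine ⟨?_, ?_, ?_⟩
  · rw [← h, ← hA', ← hB']; ring
  · intro hI0 hAB
    have hpos : 0 < ‖x - y‖ * ‖z - y‖ := by
      have h1 : 0 ≤ ‖x - y‖ * ‖z - y‖ := by positivity
      have h2 : (‖x - y‖ * ‖z - y‖) ^ 2 = A * B := by rw [mul_pow, hA', hB']
      rcases h1.lt_or_eq with h3 | h3
      · exact h3
      · rw [← h3] at h2; norm_num at h2; rcases h2 with h2 | h2 <;> simp [h2] at hAB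
    by_contra hneg
    push Not at hneg
    have := mul_neg_of_neg_of_pos hneg hpos
    linarith
  · intro hI0 hAB
    have hpos : 0 < ‖x - y‖ * ‖z - y‖ := by
      have h1 : 0 ≤ ‖x - y‖ * ‖z - y‖ := by positivity
      have h2 : (‖x - y‖ * ‖z - y‖) ^ 2 = A * B := by rw [mul_pow, hA', hB']
      rcases h1.lt_or_eq with h3 | h3
      · exact h3
      · rw [← h3] at h2; norm_num at h2; rcases h2 with h2 | h2 <;> simp [h2] at hAB
    by_contra hneg
    push Not at hneg
    have := mul_pos hneg hpos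
    linarith

lemma angle_le_aux {θ t : ℝ} (hθ : θ ≤ π) (ht : 0 ≤ t) (h : Real.cos t ≤ Real.cos θ) :
    θ ≤ t := by
  by_contra hc
  push Not at hc
  have := Real.cos_lt_cos_of_nonneg_of_le_pi ht hθ hc
  linarith

lemma angle_lt_aux {θ t : ℝ} (hθ : θ ≤ π) (ht : 0 ≤ t) (h : Real.cos t < Real.cos θ) :
    θ < t := by
  by_contra hc
  push Not at hc
  have := Real.cos_le_cos_of_nonneg_of_le_pi ht hθ hc
  linarith

lemma cos_five_pi_div_twelve : Real.cos (5 * π / 12) ≤ 13 / 50 := by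
  have h : (5 * π / 12 : ℝ) = π / 4 + π / 6 := by ring
  rw [h, Real.cos_add, Real.cos_pi_div_four, Real.cos_pi_div_six, Real.sin_pi_div_four,
    Real.sin_pi_div_six]
  have h2 : √2 ≤ 1.4143 := by
    rw [Real.sqrt_le_left (by norm_num)]; norm_num
  have h2' : (1.4142 : ℝ) ≤ √2 := by
    apply Real.le_sqrt_of_sq_le; norm_num
  have h3 : √3 ≤ 1.7321 := by
    rw [Real.sqrt_le_left (by norm_num)]; norm_num
  have h3' : (1.7320 : ℝ) ≤ √3 := by
    apply Real.le_sqrt_of_sq_le; norm_num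
  nlinarith

/-- Expansion of the curvature at each of the four vertices. -/
lemma curvature_zero (T : Fin 4 → E3) :
    curvature T 0 = 2 * π - (∠ (T 1) (T 0) (T 2) + ∠ (T 1) (T 0) (T 3) + ∠ (T 2) (T 0) (T 3)) := by
  have h : (Finset.univ : Finset (Fin 4 × Fin 4)).filter
    (fun p => p.1 < p.2 ∧ p.1 ≠ 0 ∧ p.2 ≠ 0) = {(1, 2), (1, 3), (2, 3)} := by decide
  unfold curvature
  rw [h, Finset.sum_insert (by decide), Finset.sum_insert (by decide), Finset.sum_singleton]
  ring

lemma curvature_one (T : Fin 4 → E3) :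
    curvature T 1 = 2 * π - (∠ (T 0) (T 1) (T 2) + ∠ (T 0) (T 1) (T 3) + ∠ (T 2) (T 1) (T 3)) := by
  have h : (Finset.univ : Finset (Fin 4 × Fin 4)).filter
    (fun p => p.1 < p.2 ∧ p.1 ≠ 1 ∧ p.2 ≠ 1) = {(0, 2), (0, 3), (2, 3)} := by decide
  unfold curvature
  rw [h, Finset.sum_insert (by decide), Finset.sum_insert (by decide), Finset.sum_singleton]
  ring

lemma curvature_two (T : Fin 4 → E3) :
    curvature T 2 = 2 * π - (∠ (T 0) (T 2) (T 1) + ∠ (T 0) (T 2) (T 3) + ∠ (T 1) (T 2) (T 3)) := by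
  have h : (Finset.univ : Finset (Fin 4 × Fin 4)).filter
    (fun p => p.1 < p.2 ∧ p.1 ≠ 2 ∧ p.2 ≠ 2) = {(0, 1), (0, 3), (1, 3)} := by decide
  unfold curvature
  rw [h, Finset.sum_insert (by decide), Finset.sum_insert (by decide), Finset.sum_singleton]
  ring

lemma curvature_three (T : Fin 4 → E3) :
    curvature T 3 = 2 * π - (∠ (T 0) (T 3) (T 1) + ∠ (T 0) (T 3) (T 2) + ∠ (T 1) (T 3) (T 2)) := by
  have h : (Finset.univ : Finset (Fin 4 × Fin 4)).filter
    (fun p => p.1 < p.2 ∧ p.1 ≠ 3 ∧ p.2 ≠ 3) = {(0, 1), (0, 2), (1, 2)} := by decide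
  unfold curvature
  rw [h, Finset.sum_insert (by decide), Finset.sum_insert (by decide), Finset.sum_singleton]
  ring

/-- an acute angle with large cosine is at most `5π/24`. -/
lemma le_five_pi_div_24 {θ : ℝ} (hcos : 0 ≤ Real.cos θ) (hπ : θ ≤ π)
    (h : 63 / 100 ≤ Real.cos θ ^ 2) : θ ≤ 5 * π / 24 := by
  have hle : θ ≤ π / 2 := by
    apply angle_le_aux hπ (by positivity)
    rw [Real.cos_pi_div_two]; exact hcos
  have h2 : 2 * θ ≤ 5 * π / 12 := by
    apply angle_le_aux (by linarith) (by positivity)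
    rw [Real.cos_two_mul]
    have := cos_five_pi_div_twelve
    linarith
  linarith

/-- an angle with small cosine is at least `7π/24`. -/
lemma seven_pi_div_24_le {θ : ℝ} (h0 : 0 ≤ θ) 
    (h : Real.cos θ ^ 2 ≤ 37 / 100) : 7 * π / 24 ≤ θ := by
  have h2 : 7 * π / 12 ≤ 2 * θ := by
    by_contra hc
    push Not at hc
    have := Real.cos_lt_cos_of_nonneg_of_le_pi (by linarith) (by linarith [Real.pi_pos]) hc
    rw [Real.cos_two_mul] at this
    have h7 : Real.cos (7 * π / 12) = - Real.cos (5 * π / 12) := by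
      rw [← Real.cos_pi_sub]; congr 1; ring
    have := cos_five_pi_div_twelve
    linarith
  linarith

/-- an angle with very small cosine is at least `3π/8`. -/
lemma three_pi_div_8_le {θ : ℝ} (h0 : 0 ≤ θ)
    (h : Real.cos θ ^ 2 ≤ 14 / 100) : 3 * π / 8 ≤ θ := by
  have h2 : 3 * π / 4 ≤ 2 * θ := by
    by_contra hc
    push Not at hc
    have := Real.cos_lt_cos_of_nonneg_of_le_pi (by linarith) (by linarith [Real.pi_pos]) hc
    rw [Real.cos_two_mul] at this
    have h7 : Real.cos (3 * π / 4) = - Real.cos (π / 4) := by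
      rw [← Real.cos_pi_sub]; congr 1; ring
    rw [h7, Real.cos_pi_div_four] at this
    have h2' : √2 ≤ 1.4143 := by
      rw [Real.sqrt_le_left (by norm_num)]; norm_num
    linarith
  linarith

/-- an angle with squared cosine at most `3/4` is at least `π/6`. -/
lemma pi_div_6_le {θ : ℝ} (h0 : 0 ≤ θ)
    (h : Real.cos θ ^ 2 ≤ 3 / 4) : π / 6 ≤ θ := by
  have h2 : π / 3 ≤ 2 * θ := by
    by_contra hc
    push Not at hc
    have := Real.cos_lt_cos_of_nonneg_of_le_pi (by linarith) (by linarith [Real.pi_pos]) hc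
    rw [Real.cos_two_mul, Real.cos_pi_div_three] at this
    linarith
  linarith

/-- **Disproof.** There is a tetrahedron `T` in Euclidean three-space with a unique longest edge
`T i T j` and a unique vertex `T v` of largest curvature such that `T v` is not an
endpoint of that longest edge. In particular the longest edge has no endpoint of largest
curvature. -/
theorem result :
    ∃ T : Fin 4 → E3, IsTetrahedron T ∧
      ∃ i j v : Fin 4, i ≠ j ∧ v ≠ i ∧ v ≠ j ∧
        (∀ k l : Fin 4, k ≠ l → ({k, l} : Set (Fin 4)) ≠ {i, j} →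
          dist (T k) (T l) < dist (T i) (T j)) ∧
        (∀ w : Fin 4, w ≠ v → curvature T w < curvature T v) := by
  refine ⟨T₀, isTetrahedron_T₀, 0, 1, 2, by decide, by decide, by decide, ?_, ?_⟩
  · have h01 : dist (T₀ 0) (T₀ 1) = √900 := by
      rw [dist_aux]; congr 1; simp [T₀_zero, T₀_one]; norm_num
    have h02 : dist (T₀ 0) (T₀ 2) = √837 := by
      rw [dist_aux]; congr 1; simp [T₀_zero, T₀_two]; norm_num
    have h03 : dist (T₀ 0) (T₀ 3) = √325 := by
      rw [dist_aux]; congr 1; simp [T₀_zero, T₀_three]; norm_num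
    have h12 : dist (T₀ 1) (T₀ 2) = √837 := by
      rw [dist_aux]; congr 1; simp [T₀_one, T₀_two]; norm_num
    have h13 : dist (T₀ 1) (T₀ 3) = √325 := by
      rw [dist_aux]; congr 1; simp [T₀_one, T₀_three]; norm_num
    have h23 : dist (T₀ 2) (T₀ 3) = √832 := by
      rw [dist_aux]; congr 1; simp [T₀_two, T₀_three]; norm_num
    have a1 : √837 < √900 := Real.sqrt_lt_sqrt (by norm_num) (by norm_num)
    have a2 : √832 < √900 := Real.sqrt_lt_sqrt (by norm_num) (by norm_num)
    have a3 : √325 < √900 := Real.sqrt_lt_sqrt (by norm_num) (by norm_num)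
    intro k l hkl hne
    rw [h01]
    fin_cases k <;> fin_cases l <;>
      first
      | exact absurd rfl hkl
      | (exfalso; apply hne; simp; done)
      | exact absurd (Set.pair_comm _ _) hne
      | skip
    all_goals simp only [Fin.mk_zero, Fin.mk_one, Fin.reduceFinMk, Fin.isValue]
    all_goals first
      | (rw [h02]; assumption)
      | (rw [h03]; assumption)
      | (rw [h12]; assumption)
      | (rw [h13]; assumption)
      | (rw [h23]; assumption)
      | (rw [dist_comm, h02]; assumption)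
      | (rw [dist_comm, h03]; assumption)
      | (rw [dist_comm, h12]; assumption)
      | (rw [dist_comm, h13]; assumption)
      | (rw [dist_comm, h23]; assumption)
  · have hpi := Real.pi_pos
    -- angles at vertex 2
    have c2 : ∠ (T₀ 0) (T₀ 2) (T₀ 1) < 5 * π / 12 := by
      obtain ⟨h1, h2, -⟩ := cos_sq_aux (T₀ 0) (T₀ 2) (T₀ 1) 837 837 387
        (by simp [T₀_zero, T₀_two]; norm_num) (by simp [T₀_one, T₀_two]; norm_num)
        (by simp [T₀_zero, T₀_one, T₀_two]; norm_num)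
      have h3 := h2 (by norm_num) (by norm_num)
      apply angle_lt_aux (EuclideanGeometry.angle_le_pi _ _ _) (by positivity)
      have := cos_five_pi_div_twelve
      nlinarith
    have c2' : ∠ (T₀ 0) (T₀ 2) (T₀ 3) ≤ 5 * π / 24 := by
      obtain ⟨h1, h2, -⟩ := cos_sq_aux (T₀ 0) (T₀ 2) (T₀ 3) 837 832 672
        (by simp [T₀_zero, T₀_two]; norm_num) (by simp [T₀_three, T₀_two]; norm_num)
        (by simp [T₀_zero, T₀_three, T₀_two]; norm_num)
      have h3 := h2 (by norm_num) (by norm_num)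
      apply le_five_pi_div_24 h3 (EuclideanGeometry.angle_le_pi _ _ _)
      linarith
    have c2'' : ∠ (T₀ 1) (T₀ 2) (T₀ 3) ≤ 5 * π / 24 := by
      obtain ⟨h1, h2, -⟩ := cos_sq_aux (T₀ 1) (T₀ 2) (T₀ 3) 837 832 672
        (by simp [T₀_one, T₀_two]; norm_num) (by simp [T₀_three, T₀_two]; norm_num)
        (by simp [T₀_one, T₀_three, T₀_two]; norm_num)
      have h3 := h2 (by norm_num) (by norm_num)
      apply le_five_pi_div_24 h3 (EuclideanGeometry.angle_le_pi _ _ _)
      linarith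
    -- angles at vertex 0
    have a0 : 7 * π / 24 ≤ ∠ (T₀ 1) (T₀ 0) (T₀ 2) := by
      obtain ⟨h1, -, -⟩ := cos_sq_aux (T₀ 1) (T₀ 0) (T₀ 2) 900 837 450
        (by simp [T₀_zero, T₀_one]; norm_num) (by simp [T₀_zero, T₀_two]; norm_num)
        (by simp [T₀_zero, T₀_one, T₀_two]; norm_num)
      apply seven_pi_div_24_le (EuclideanGeometry.angle_nonneg _ _ _)
      linarith
    have a0' : π / 6 ≤ ∠ (T₀ 1) (T₀ 0) (T₀ 3) := by
      obtain ⟨h1, -, -⟩ := cos_sq_aux (T₀ 1) (T₀ 0) (T₀ 3) 900 325 450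
        (by simp [T₀_zero, T₀_one]; norm_num) (by simp [T₀_zero, T₀_three]; norm_num)
        (by simp [T₀_zero, T₀_one, T₀_three]; norm_num)
      apply pi_div_6_le (EuclideanGeometry.angle_nonneg _ _ _)
      linarith
    have a0'' : 3 * π / 8 ≤ ∠ (T₀ 2) (T₀ 0) (T₀ 3) := by
      obtain ⟨h1, -, -⟩ := cos_sq_aux (T₀ 2) (T₀ 0) (T₀ 3) 837 325 165
        (by simp [T₀_zero, T₀_two]; norm_num) (by simp [T₀_zero, T₀_three]; norm_num)
        (by simp [T₀_zero, T₀_two, T₀_three]; norm_num)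
      apply three_pi_div_8_le (EuclideanGeometry.angle_nonneg _ _ _)
      linarith
    -- angles at vertex 1
    have b0 : 7 * π / 24 ≤ ∠ (T₀ 0) (T₀ 1) (T₀ 2) := by
      obtain ⟨h1, -, -⟩ := cos_sq_aux (T₀ 0) (T₀ 1) (T₀ 2) 900 837 450
        (by simp [T₀_zero, T₀_one]; norm_num) (by simp [T₀_one, T₀_two]; norm_num)
        (by simp [T₀_zero, T₀_one, T₀_two]; norm_num)
      apply seven_pi_div_24_le (EuclideanGeometry.angle_nonneg _ _ _)
      linarith
    have b0' : π / 6 ≤ ∠ (T₀ 0) (T₀ 1) (T₀ 3) := by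
      obtain ⟨h1, -, -⟩ := cos_sq_aux (T₀ 0) (T₀ 1) (T₀ 3) 900 325 450
        (by simp [T₀_zero, T₀_one]; norm_num) (by simp [T₀_one, T₀_three]; norm_num)
        (by simp [T₀_zero, T₀_one, T₀_three]; norm_num)
      apply pi_div_6_le (EuclideanGeometry.angle_nonneg _ _ _)
      linarith
    have b0'' : 3 * π / 8 ≤ ∠ (T₀ 2) (T₀ 1) (T₀ 3) := by
      obtain ⟨h1, -, -⟩ := cos_sq_aux (T₀ 2) (T₀ 1) (T₀ 3) 837 325 165
        (by simp [T₀_one, T₀_two]; norm_num) (by simp [T₀_one, T₀_three]; norm_num)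
        (by simp [T₀_one, T₀_two, T₀_three]; norm_num)
      apply three_pi_div_8_le (EuclideanGeometry.angle_nonneg _ _ _)
      linarith
    -- angles at vertex 3
    have d0 : 7 * π / 24 ≤ ∠ (T₀ 0) (T₀ 3) (T₀ 1) := by
      obtain ⟨h1, -, -⟩ := cos_sq_aux (T₀ 0) (T₀ 3) (T₀ 1) 325 325 (-125)
        (by simp [T₀_zero, T₀_three]; norm_num) (by simp [T₀_one, T₀_three]; norm_num)
        (by simp [T₀_zero, T₀_one, T₀_three]; norm_num)
      apply seven_pi_div_24_le (EuclideanGeometry.angle_nonneg _ _ _)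
      linarith
    have d0' : 3 * π / 8 ≤ ∠ (T₀ 0) (T₀ 3) (T₀ 2) := by
      obtain ⟨h1, -, -⟩ := cos_sq_aux (T₀ 0) (T₀ 3) (T₀ 2) 325 832 160
        (by simp [T₀_zero, T₀_three]; norm_num) (by simp [T₀_two, T₀_three]; norm_num)
        (by simp [T₀_zero, T₀_two, T₀_three]; norm_num)
      apply three_pi_div_8_le (EuclideanGeometry.angle_nonneg _ _ _)
      linarith
    have d0'' : 3 * π / 8 ≤ ∠ (T₀ 1) (T₀ 3) (T₀ 2) := by
      obtain ⟨h1, -, -⟩ := cos_sq_aux (T₀ 1) (T₀ 3) (T₀ 2) 325 832 160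
        (by simp [T₀_one, T₀_three]; norm_num) (by simp [T₀_two, T₀_three]; norm_num)
        (by simp [T₀_one, T₀_two, T₀_three]; norm_num)
      apply three_pi_div_8_le (EuclideanGeometry.angle_nonneg _ _ _)
      linarith
    intro w hw
    fin_cases w
    · change curvature T₀ 0 < curvature T₀ 2
      rw [curvature_zero, curvature_two]
      linarith
    · change curvature T₀ 1 < curvature T₀ 2
      rw [curvature_one, curvature_two]
      linarith
    · exact absurd rfl hw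
    · change curvature T₀ 3 < curvature T₀ 2
      rw [curvature_three, curvature_two]
      linarith

end Pool.Agent.Results.MP_ba4d4a_gt.LongestEdgeDisproof
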